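import Pool.Agent.Helper92_SBG.Stmts

/-!
# Squad SBG, modules WGT and WG0: sets of coordinates
-/

namespace Pool.Agent.SBG.H29

open Sy

theorem VS_congr {ι : Type} {S S' : ι → Prop} (h : ∀ c, S c ↔ S' c) : VS S = VS S' :=
  congrArg VS (funext fun c => propext (h c))

theorem wtI_pos {k : ℕ} (c : Ix k) : 1 ≤ wtI c := by
  rcases c with ⟨i, s⟩ | j
  · cases s <;> simp [wtI, Sy.wt]
  · simp [wtI]

theorem wtI_le {k : ℕ} (c : Ix k) : wtI c ≤ 4 := by
  rcases c with ⟨i, s⟩ | j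
  · cases s <;> simp [wtI, Sy.wt]
  · simp only [wtI]
    omega

/-- the number of coordinates of weight at least `s` -/
theorem card_wt (k s : ℕ) : (Finset.univ.filter fun c : Ix k => s ≤ wtI c).card =
    k * (Finset.univ.filter fun a : Sy => s ≤ a.wt).card +
      (Finset.univ.filter fun j : Fin 3 => s ≤ (j : ℕ) + 1).card := by
  simp only [Finset.card_filter]
  rw [Fintype.sum_sum_type, Fintype.sum_prod_type]
  have h1 : ∀ x ∈ (Finset.univ : Finset (Fin k)),
      (∑ y : Sy, if s ≤ wtI (k := k) (Sum.inl (x, y)) then 1 else 0) =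
        ∑ y : Sy, if s ≤ y.wt then 1 else 0 := fun x _ => rfl
  rw [Finset.sum_congr rfl h1, Finset.sum_const, Finset.card_univ, Fintype.card_fin, smul_eq_mul]
  rfl

theorem card_four (k : ℕ) : (Finset.univ.filter fun c : Ix k => 4 ≤ wtI c).card = 4 * k := by
  rw [card_wt]
  have h1 : (Finset.univ.filter fun a : Sy => 4 ≤ a.wt).card = 4 := by decide
  have h2 : (Finset.univ.filter fun j : Fin 3 => 4 ≤ (j : ℕ) + 1).card = 0 := by decide
  rw [h1, h2]
  ring

theorem card_three (k : ℕ) : (Finset.univ.filter fun c : Ix k => 3 ≤ wtI c).card = 9 * k + 1 := by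
  rw [card_wt]
  have h1 : (Finset.univ.filter fun a : Sy => 3 ≤ a.wt).card = 9 := by decide
  have h2 : (Finset.univ.filter fun j : Fin 3 => 3 ≤ (j : ℕ) + 1).card = 1 := by decide
  rw [h1, h2]
  ring

/-- the sum of the weights is bounded by the numbers of coordinates of large weight -/
theorem sum_le {k : ℕ} (I : Finset (Ix k)) (w : Ix k → ℕ) (hw : ∀ c, wtI c ≤ w c) :
    ∑ c ∈ I, wtI c ≤ (I.filter fun c => 1 ≤ w c).card + (I.filter fun c => 2 ≤ w c).card +
      (I.filter fun c => 3 ≤ w c).card + (I.filter fun c => 4 ≤ w c).card := by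
  simp only [Finset.card_filter]
  rw [← Finset.sum_add_distrib, ← Finset.sum_add_distrib, ← Finset.sum_add_distrib]
  refine Finset.sum_le_sum fun c _ => ?_
  have h1 := hw c
  have h2 := wtI_le c
  split_ifs <;> omega

theorem sum_eq {k : ℕ} (I : Finset (Ix k)) :
    ∑ c ∈ I, wtI c = (I.filter fun c => 1 ≤ wtI c).card + (I.filter fun c => 2 ≤ wtI c).card +
      (I.filter fun c => 3 ≤ wtI c).card + (I.filter fun c => 4 ≤ wtI c).card := by
  simp only [Finset.card_filter]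
  rw [← Finset.sum_add_distrib, ← Finset.sum_add_distrib, ← Finset.sum_add_distrib]
  refine Finset.sum_congr rfl fun c _ => ?_
  have h1 := wtI_pos c
  have h2 := wtI_le c
  split_ifs <;> omega

theorem card_one {k : ℕ} (I : Finset (Ix k)) (w : Ix k → ℕ) :
    (I.filter fun c => 1 ≤ w c).card ≤ I.card := Finset.card_filter_le _ _

/-- adding coordinates of weight at least `s` to a coordinate subspace -/
theorem dm_add (hG : GrdStmt) {k : ℕ} (L : Submodule ℚ (Ix k → ℚ)) (S : Ix k → Prop) (s : ℕ) :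
    dm (L ⊓ VS fun c => S c ∨ s ≤ wtI c) ≤
      dm (L ⊓ VS S) + (Finset.univ.filter fun c : Ix k => s ≤ wtI c).card := by
  classical
  obtain ⟨I, -, -, hI⟩ := hG (Ix k) L (fun c => if S c then 2 else if s ≤ wtI c then 1 else 0)
  have h1 := hI 1
  have h2 := hI 2
  have e1 : VS (fun c : Ix k => 1 ≤ (if S c then 2 else if s ≤ wtI c then 1 else 0)) =
      VS fun c => S c ∨ s ≤ wtI c := by
    refine VS_congr fun c => ?_
    by_cases hc : S c
    · simp [hc]
    · by_cases hs : s ≤ wtI c <;> simp [hc, hs]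
  have e2 : VS (fun c : Ix k => 2 ≤ (if S c then 2 else if s ≤ wtI c then 1 else 0)) = VS S := by
    refine VS_congr fun c => ?_
    by_cases hc : S c
    · simp [hc]
    · by_cases hs : s ≤ wtI c <;> simp [hc, hs]
  rw [e1] at h1
  rw [e2] at h2
  rw [← h1, ← h2]
  refine (Finset.card_le_card ?_).trans (Finset.card_union_le _ _)
  intro c hc
  rw [Finset.mem_filter] at hc
  rw [Finset.mem_union, Finset.mem_filter, Finset.mem_filter]
  by_cases hS : S c
  · left
    exact ⟨hc.1, by rw [if_pos hS]⟩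
  · right
    refine ⟨Finset.mem_univ _, ?_⟩
    by_contra hs
    have := hc.2
    rw [if_neg hS, if_neg hs] at this
    omega

/-- the weights of the second choice -/
def wa {k : ℕ} : Ix k → ℕ
  | Sum.inl (_, b3) => 5
  | Sum.inl (_, c3) => 5
  | c => wtI c

/-- the weights of the third choice -/
def wc {k : ℕ} : Ix k → ℕ
  | Sum.inl (_, a3) => 5
  | Sum.inl (_, b3) => 5
  | c => wtI c

theorem wa_ge {k : ℕ} (c : Ix k) : wtI c ≤ wa c := by
  rcases c with ⟨i, s⟩ | j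
  · cases s <;> simp [wa, wtI, Sy.wt]
  · simp [wa]

theorem wc_ge {k : ℕ} (c : Ix k) : wtI c ≤ wc c := by
  rcases c with ⟨i, s⟩ | j
  · cases s <;> simp [wc, wtI, Sy.wt]
  · simp [wc]

theorem wa5 {k : ℕ} (c : Ix k) : 5 ≤ wa c ↔ isS b3 c ∨ isS c3 c := by
  rcases c with ⟨i, s⟩ | j
  · cases s <;> simp [wa, wtI, Sy.wt, isS]
  · have := j.2
    simp only [wa, wtI, isS]
    simp
    omega

theorem wa4 {k : ℕ} (c : Ix k) : 4 ≤ wa c ↔ (isS b3 c ∨ isS c3 c) ∨ 4 ≤ wtI c := by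
  rcases c with ⟨i, s⟩ | j
  · cases s <;> simp [wa, wtI, Sy.wt, isS]
  · simp [wa, wtI, isS]

theorem wa3 {k : ℕ} (c : Ix k) : 3 ≤ wa c ↔ (isS b3 c ∨ isS c3 c) ∨ 3 ≤ wtI c := by
  rcases c with ⟨i, s⟩ | j
  · cases s <;> simp [wa, wtI, Sy.wt, isS]
  · simp [wa, wtI, isS]

theorem wa2 {k : ℕ} (c : Ix k) : 2 ≤ wa c ↔ 2 ≤ wtI c := by
  rcases c with ⟨i, s⟩ | j
  · cases s <;> simp [wa, wtI, Sy.wt]
  · simp [wa, wtI]

theorem wc5 {k : ℕ} (c : Ix k) : 5 ≤ wc c ↔ isS a3 c ∨ isS b3 c := by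
  rcases c with ⟨i, s⟩ | j
  · cases s <;> simp [wc, wtI, Sy.wt, isS]
  · have := j.2
    simp only [wc, wtI, isS]
    simp
    omega

theorem wc4 {k : ℕ} (c : Ix k) : 4 ≤ wc c ↔ (isS a3 c ∨ isS b3 c) ∨ 4 ≤ wtI c := by
  rcases c with ⟨i, s⟩ | j
  · cases s <;> simp [wc, wtI, Sy.wt, isS]
  · simp [wc, wtI, isS]

theorem wc3 {k : ℕ} (c : Ix k) : 3 ≤ wc c ↔ (isS a3 c ∨ isS b3 c) ∨ 3 ≤ wtI c := by
  rcases c with ⟨i, s⟩ | j
  · cases s <;> simp [wc, wtI, Sy.wt, isS]
  · simp [wc, wtI, isS]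

theorem wc2 {k : ℕ} (c : Ix k) : 2 ≤ wc c ↔ 2 ≤ wtI c ∨ isS a3 c := by
  rcases c with ⟨i, s⟩ | j
  · cases s <;> simp [wc, wtI, Sy.wt, isS]
  · simp [wc, wtI, isS]

/-- WGT: sets of coordinates for isotropic subspaces. -/
theorem wgt (hG : GrdStmt) (hI : IsoStmt) : WgtStmt := by
  intro k l0 l1 L hL hl1
  obtain ⟨i1, i2, i3, i4, i5, i6, i7, i8, i9⟩ := hI k l0 l1 L hL hl1
  obtain ⟨I, hI1, hI2, hI3⟩ := hG (Ix k) L wtI
  have hs := sum_eq I
  have hf1 : (I.filter fun c => 1 ≤ wtI c).card = dm L := by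
    rw [← hI1]
    congr 1
    exact Finset.filter_true_of_mem fun c _ => wtI_pos c
  rw [hf1, hI3 2, hI3 3, hI3 4] at hs
  set d1 := dm L with hd1
  set d2 := dm (L ⊓ VS fun c => 2 ≤ wtI c) with hd2
  set d3 := dm (L ⊓ VS fun c => 3 ≤ wtI c) with hd3
  set d4 := dm (L ⊓ VS fun c => 4 ≤ wtI c) with hd4
  refine ⟨34 * k + 6 - (d1 + d2 + d3 + d4), ⟨I, hI1, hI2, by omega⟩, ?_, ?_, by omega, by omega⟩
  · obtain ⟨I', h1, h2, h3⟩ := hG (Ix k) L wa
    have g5 := h3 5
    have g4 := h3 4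
    have g3 := h3 3
    have g2 := h3 2
    rw [VS_congr wa5] at g5
    rw [VS_congr wa4] at g4
    rw [VS_congr wa3] at g3
    rw [VS_congr wa2] at g2
    have m4 := dm_add hG L (fun c => isS b3 c ∨ isS c3 c) 4
    have m3 := dm_add hG L (fun c => isS b3 c ∨ isS c3 c) 3
    rw [card_four] at m4
    rw [card_three] at m3
    have hs' := sum_le I' wa wa_ge
    have ho := card_one I' wa
    refine ⟨I', h1, h2, by omega, ?_⟩
    intro J hJ
    have hJ' : (I' ∩ J).card ≤ (I'.filter fun c => 5 ≤ wa c).card := by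
      refine Finset.card_le_card fun c hc => ?_
      rw [Finset.mem_inter] at hc
      exact Finset.mem_filter.2 ⟨hc.1, (wa5 c).2 (hJ c hc.2)⟩
    omega
  · intro hl0
    have i7' := i7 hl0
    obtain ⟨I', h1, h2, h3⟩ := hG (Ix k) L wc
    have g5 := h3 5
    have g4 := h3 4
    have g3 := h3 3
    have g2 := h3 2
    rw [VS_congr wc5] at g5
    rw [VS_congr wc4] at g4
    rw [VS_congr wc3] at g3
    rw [VS_congr wc2] at g2
    have m4 := dm_add hG L (fun c => isS a3 c ∨ isS b3 c) 4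
    have m3 := dm_add hG L (fun c => isS a3 c ∨ isS b3 c) 3
    rw [card_four] at m4
    rw [card_three] at m3
    have hs' := sum_le I' wc wc_ge
    have ho := card_one I' wc
    refine ⟨I', h1, h2, by omega, ?_⟩
    intro J hJ
    have hJ' : (I' ∩ J).card ≤ (I'.filter fun c => 5 ≤ wc c).card := by
      refine Finset.card_le_card fun c hc => ?_
      rw [Finset.mem_inter] at hc
      exact Finset.mem_filter.2 ⟨hc.1, (wc5 c).2 (hJ c hc.2)⟩
    omega

/-- WG0: sets of coordinates, the two other cases. -/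
theorem wg0 (hG : GrdStmt) (hI : IsoStmt) (hI0 : Is0Stmt) (hT : TisStmt) : Wg0Stmt := by
  intro k L
  obtain ⟨I, hI1, hI2, hI3⟩ := hG (Ix k) L wtI
  have hs := sum_eq I
  have hf1 := card_one I wtI
  rw [hI3 2, hI3 3, hI3 4] at hs
  refine ⟨fun h => ⟨I, hI1, hI2, ?_⟩, fun h => ⟨I, hI1, hI2, ?_⟩⟩
  · have hiso : Iso (k := k) 1 0 L := fun x hx y hy => by rw [h x hx y hy]; ring
    obtain ⟨j1, j2, j3, j4⟩ := hI0 k 1 L hiso one_ne_zero
    omega
  · have hiso : Iso (k := k) 0 1 L := fun x hx y hy => by rw [(h x hx y hy).2]; ring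
    obtain ⟨j1, j2, j3, j4, -⟩ := hI k 0 1 L hiso one_ne_zero
    have ht := hT k L h
    omega

end Pool.Agent.SBG.H29
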